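import Mathlib

/-!
# Thin-3, part NPW
-/

set_option linter.all false

open MvPolynomial
open scoped Classical

noncomputable section
namespace Pool.Agent.Helper87.RT.NPWa

/-- extraction of multiplicity: in a UFD, if `w^p = a` in the fraction field, `q` prime, then `p ∣ emultiplicity`. -/
lemma dvd_mult {R : Type*} [CommRing R] [IsDomain R] [UniqueFactorizationMonoid R] (K : Type*) [Field K]
    [Algebra R K] [IsFractionRing R K] (p : ℕ) (w : K) (a : R) (ha : a ≠ 0)
    (h : w ^ p = algebraMap R K a) (q : R) (hq : Prime q) : p ∣ multiplicity q a := by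
  obtain ⟨x, y, hy, hxy⟩ := IsFractionRing.div_surjective (A := R) w
  have hy0 : y ≠ 0 := nonZeroDivisors.ne_zero hy
  have hyK : algebraMap R K y ≠ 0 := by
    simpa using (map_ne_zero_iff _ (IsFractionRing.injective R K)).2 hy0
  have h1 : x ^ p = a * y ^ p := by
    apply IsFractionRing.injective R K
    rw [map_pow, map_mul, map_pow, ← h, ← hxy, div_pow]
    field_simp
  by_cases hp : p = 0
  · subst hp
    simp at h1
    have : multiplicity q a = 0 := by
      rw [← h1]
      exact multiplicity_eq_zero.2 (fun hd => hq.not_isUnit (isUnit_of_dvd_one hd))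
    rw [this]
  have hx0 : x ≠ 0 := by
    intro hx
    rw [hx, zero_pow hp] at h1
    exact (mul_ne_zero ha (pow_ne_zero _ hy0)) h1.symm
  have fx : FiniteMultiplicity q x := FiniteMultiplicity.of_prime_left hq hx0
  have fy : FiniteMultiplicity q y := FiniteMultiplicity.of_prime_left hq hy0
  have fa : FiniteMultiplicity q a := FiniteMultiplicity.of_prime_left hq ha
  have h2 := congrArg (multiplicity q) h1
  rw [fx.multiplicity_pow hq, multiplicity_mul hq
    (FiniteMultiplicity.of_prime_left hq (mul_ne_zero ha (pow_ne_zero _ hy0))),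
    fy.multiplicity_pow hq] at h2
  have h3 : p ∣ multiplicity q a + p * multiplicity q y := ⟨_, h2.symm⟩
  exact (Nat.dvd_add_left (Dvd.intro _ rfl)).1 h3

variable {κ : Type} [Field κ] {n : ℕ}

lemma lin_prime (P : MvPolynomial (Fin n) κ) (hd : totalDegree P ≤ 1) (i : Fin n)
    (hi : coeff (Finsupp.single i 1) P = 1) : Prime P := by
  apply Irreducible.prime
  apply irreducible_of_totalDegree_eq_one
  · refine le_antisymm hd ?_
    rw [← not_lt, Nat.lt_one_iff, totalDegree_eq_zero_iff_eq_C]
    intro h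
    rw [h, coeff_C] at hi
    rw [if_neg] at hi
    · exact zero_ne_one hi
    · intro h2
      have := congrArg (fun s => s i) h2
      simp at this
  · intro x hx
    have := hx (Finsupp.single i 1)
    rw [hi] at this
    exact isUnit_of_dvd_one this

lemma prime_XX {i j : Fin n} (h : i ≠ j) : Prime (X i - X j : MvPolynomial (Fin n) κ) := by
  apply lin_prime _ _ i
  · rw [coeff_sub, coeff_X, coeff_X, if_pos rfl, if_neg, sub_zero]
    intro h2
    exact h ((Finsupp.single_left_inj one_ne_zero).1 h2).symm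
  · refine (totalDegree_sub _ _).trans ?_
    simp

lemma prime_XC (i : Fin n) (r : κ) : Prime (X i - C r : MvPolynomial (Fin n) κ) := by
  apply lin_prime _ _ i
  · rw [coeff_sub, coeff_X, if_pos rfl, coeff_C, if_neg, sub_zero]
    intro h2
    have := congrArg (fun s => s i) h2
    simp at this
  · refine (totalDegree_sub _ _).trans ?_
    simp

lemma key {S : Type*} [CommRing S] [IsDomain S] (φ : MvPolynomial (Fin n) κ →+* S)
    (q a b : MvPolynomial (Fin n) κ) (m : ℕ) (hq : Prime q) (hφ : φ q = 0) (hb : φ b ≠ 0)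
    (hab : a = q ^ m * b) (p : ℕ) (w : FractionRing (MvPolynomial (Fin n) κ))
    (hw : w ^ p = algebraMap _ _ a) : p ∣ m := by
  have hb0 : b ≠ 0 := fun h => hb (by rw [h, map_zero])
  have hnd : ¬ q ∣ b := by
    rintro ⟨c, hc⟩
    apply hb
    rw [hc, map_mul, hφ, zero_mul]
  have ha : a ≠ 0 := by rw [hab]; exact mul_ne_zero (pow_ne_zero _ hq.ne_zero) hb0
  have h1 := dvd_mult _ p w a ha hw q hq
  have h2 : multiplicity q a = m := by
    apply multiplicity_eq_of_dvd_of_not_dvd
    · rw [hab]; exact Dvd.intro _ rfl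
    · rw [hab, pow_succ]
      intro h
      exact hnd ((mul_dvd_mul_iff_left (pow_ne_zero m hq.ne_zero)).1 h)
  rwa [h2] at h1

lemma XX_ne {i j : Fin n} (h : i ≠ j) : (X i - X j : MvPolynomial (Fin n) κ) ≠ 0 := (prime_XX h).ne_zero
lemma XC_ne (i : Fin n) (r : κ) : (X i - C r : MvPolynomial (Fin n) κ) ≠ 0 := (prime_XC i r).ne_zero

theorem npw : ∀ (p : ℕ) [Fact p.Prime] (κ : Type) [Field κ] [CharZero κ] (n : ℕ)
  (R : Finset κ) (f : Fin n → Fin n → ℕ) (g : Fin n → κ → ℕ),
  ((∃ i j, i < j ∧ ¬ p ∣ f i j) ∨ ∃ i, ∃ r ∈ R, ¬ p ∣ g i r) →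
  ∀ w : FractionRing (MvPolynomial (Fin n) κ), w ^ p ≠
    algebraMap (MvPolynomial (Fin n) κ) (FractionRing (MvPolynomial (Fin n) κ))
      ((∏ i, ∏ j ∈ Finset.univ.filter (fun j => i < j),
        (MvPolynomial.X i - MvPolynomial.X j) ^ f i j) *
        ∏ i, ∏ r ∈ R, (MvPolynomial.X i - MvPolynomial.C r) ^ g i r) := by
  intro p _ κ _ _ n R f g hfg w hw
  rcases hfg with ⟨i0, j0, hij, hnp⟩ | ⟨i0, r0, hr0, hnp⟩
  · apply hnp
    have hj0 : j0 ∈ Finset.univ.filter (fun j => i0 < j) := by simp [hij]
    set τ : Fin n → Fin n := fun k => if k = j0 then i0 else k with hτ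
    set φ : MvPolynomial (Fin n) κ →+* MvPolynomial (Fin n) κ :=
      (aeval (fun k => (X (τ k) : MvPolynomial (Fin n) κ))).toRingHom with hφ
    have hX : ∀ k, φ (X k) = X (τ k) := fun k => by simp [hφ]
    have hCC : ∀ r, φ (C r) = C r := fun r => by
      simp only [hφ, AlgHom.toRingHom_eq_coe, RingHom.coe_coe]
      rw [aeval_C]; rfl
    have hne : ∀ i j, i < j → ¬ (i = i0 ∧ j = j0) → φ ((X i - X j) ^ f i j) ≠ 0 := by
      intro i j hlt hnot
      rw [map_pow, map_sub, hX, hX]
      apply pow_ne_zero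
      apply XX_ne
      simp only [hτ]
      intro h
      split_ifs at h with h1 h2 h2
      · rw [h1, h2] at hlt; exact lt_irrefl _ hlt
      · rw [h1, ← h] at hlt
        exact lt_asymm hlt hij
      · exact hnot ⟨h, h2⟩
      · rw [h] at hlt; exact lt_irrefl _ hlt
    refine key φ (X i0 - X j0) _
      ((∏ j ∈ (Finset.univ.filter (fun j => i0 < j)).erase j0, (X i0 - X j) ^ f i0 j) *
        (∏ i ∈ Finset.univ.erase i0, ∏ j ∈ Finset.univ.filter (fun j => i < j),
          (X i - X j) ^ f i j) * ∏ i, ∏ r ∈ R, (X i - C r) ^ g i r) (f i0 j0) (prime_XX hij.ne)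
      ?_ ?_ ?_ p w hw
    · rw [map_sub, hX, hX]
      simp [hτ, hij.ne]
    · rw [map_mul, map_mul, map_prod, map_prod, map_prod]
      refine mul_ne_zero (mul_ne_zero ?_ ?_) ?_
      · rw [Finset.prod_ne_zero_iff]
        intro j hj
        rw [Finset.mem_erase, Finset.mem_filter] at hj
        exact hne i0 j hj.2.2 (fun h => hj.1 h.2)
      · rw [Finset.prod_ne_zero_iff]
        intro i hi
        rw [map_prod, Finset.prod_ne_zero_iff]
        intro j hj
        rw [Finset.mem_filter] at hj
        rw [Finset.mem_erase] at hi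
        exact hne i j hj.2 (fun h => hi.1 h.1)
      · rw [Finset.prod_ne_zero_iff]
        intro i _
        rw [map_prod, Finset.prod_ne_zero_iff]
        intro r _
        rw [map_pow, map_sub, hX, hCC]
        exact pow_ne_zero _ (XC_ne _ _)
    · rw [← Finset.mul_prod_erase Finset.univ (fun i => ∏ j ∈ Finset.univ.filter (fun j => i < j),
          (X i - X j : MvPolynomial (Fin n) κ) ^ f i j) (Finset.mem_univ i0),
        ← Finset.mul_prod_erase (Finset.univ.filter (fun j => i0 < j))
          (fun j => (X i0 - X j : MvPolynomial (Fin n) κ) ^ f i0 j) hj0]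
      ring
  · apply hnp
    set φ : MvPolynomial (Fin n) κ →+* MvPolynomial (Fin n) κ :=
      (aeval (fun k => (if k = i0 then C r0 else X k : MvPolynomial (Fin n) κ))).toRingHom with hφ
    have hX : ∀ k, φ (X k) = if k = i0 then C r0 else X k := fun k => by simp [hφ]
    have hCC : ∀ r, φ (C r) = C r := fun r => by
      simp only [hφ, AlgHom.toRingHom_eq_coe, RingHom.coe_coe]
      rw [aeval_C]; rfl
    refine key φ (X i0 - C r0) _
      ((∏ i, ∏ j ∈ Finset.univ.filter (fun j => i < j), (X i - X j) ^ f i j) *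
        (∏ r ∈ R.erase r0, (X i0 - C r) ^ g i0 r) *
        (∏ i ∈ Finset.univ.erase i0, ∏ r ∈ R, (X i - C r) ^ g i r)) (g i0 r0) (prime_XC i0 r0)
      ?_ ?_ ?_ p w hw
    · rw [map_sub, hX, hCC]
      simp
    · rw [map_mul, map_mul, map_prod, map_prod, map_prod]
      refine mul_ne_zero (mul_ne_zero ?_ ?_) ?_
      · rw [Finset.prod_ne_zero_iff]
        intro i _
        rw [map_prod, Finset.prod_ne_zero_iff]
        intro j hj
        rw [Finset.mem_filter] at hj
        rw [map_pow, map_sub, hX, hX]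
        apply pow_ne_zero
        split_ifs with h1 h2 h2
        · exact absurd (h1.trans h2.symm) hj.2.ne
        · intro h
          apply XC_ne (κ := κ) j r0
          rw [← neg_sub, h, neg_zero]
        · exact XC_ne _ _
        · exact XX_ne hj.2.ne
      · rw [Finset.prod_ne_zero_iff]
        intro r hr
        rw [Finset.mem_erase] at hr
        rw [map_pow, map_sub, hX, hCC, if_pos rfl, ← C_sub]
        apply pow_ne_zero
        rw [Ne, C_eq_zero, sub_eq_zero]
        exact fun h => hr.1 h.symm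
      · rw [Finset.prod_ne_zero_iff]
        intro i hi
        rw [Finset.mem_erase] at hi
        rw [map_prod, Finset.prod_ne_zero_iff]
        intro r _
        rw [map_pow, map_sub, hX, hCC, if_neg hi.1]
        exact pow_ne_zero _ (XC_ne _ _)
    · rw [← Finset.mul_prod_erase Finset.univ (fun i => ∏ r ∈ R,
          (X i - C r : MvPolynomial (Fin n) κ) ^ g i r) (Finset.mem_univ i0),
        ← Finset.mul_prod_erase R (fun r => (X i0 - C r : MvPolynomial (Fin n) κ) ^ g i0 r) hr0]
      ring

end Pool.Agent.Helper87.RT.NPWa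
end
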