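import Pool.Agent.Helper55.RT.Spec5
import Pool.Agent.Helper87.RT.NPWa

/-!
# Thin-3, part NPW
-/

namespace Pool.Agent.Helper87.RT.NPW

theorem main : Pool.Agent.Helper55.RT.Q_NPW := Pool.Agent.Helper87.RT.NPWa.npw

end Pool.Agent.Helper87.RT.NPW
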